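import Pool.Agent.Lib_helper53.LE.Defs

/-!
# LSP3, part M: the mollifier of `L(1/2, f) L(1/2, f × χ)`. Definitions.

`χ` is a primitive quadratic character mod `q`; `t = 1 / √p`. `b = b₁ · br · th`: `b₁` is a
polynomial in the variables `x p`, `p ≤ z₀`, with `b₁ ∏ pp` close to `S = ∑ s_m U_m`; `br` is of
Selberg's type, at the primes in `(z₀, z₁]` with `χ(p) ≠ -1`; `th` kills the zero mode.
-/

set_option autoImplicit false

namespace Pool.Agent.LM

open Complex MeasureTheory ProbabilityTheory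
open Pool.Agent.LSP (tau MX CC CB sg1 wX)
open Pool.Agent.LEV (Uu Um)
open Pool.Agent.LVB (IsST el)
open Pool.Agent.LK (Qe V PQ MW)
open Pool.Agent.LE

variable {q : ℕ} [NeZero q]

/-- the value of the character, a real number -/
noncomputable def cv (χ : DirichletCharacter ℂ q) (p : ℕ) : ℝ := (χ p).re

/-- the local factor of `L(1/2, f) L(1/2, f × χ)` -/
noncomputable def pp (χ : DirichletCharacter ℂ q) (p : ℕ) (y : ℝ) : ℝ :=
  ((1 - y / Real.sqrt p + 1 / p) * (1 - cv χ p * y / Real.sqrt p + cv χ p ^ 2 / p))⁻¹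

/-- the mean of `y` for the density `pp²` -/
noncomputable def ma (χ : DirichletCharacter ℂ q) (p : ℕ) : ℝ :=
  if cv χ p = 1 then 4 / Real.sqrt p / (1 + 1 / p) else if cv χ p = 0 then 2 / Real.sqrt p else 0

/-- its variance (for `χ(p) ≠ -1`) -/
noncomputable def va (χ : DirichletCharacter ℂ q) (p : ℕ) : ℝ :=
  if cv χ p = 1 then (1 - 1 / (p : ℝ)) ^ 4 / (1 + 1 / p) ^ 2 else 1 - 1 / p

/-- the normalised variable -/
noncomputable def ph (χ : DirichletCharacter ℂ q) (p : ℕ) (y : ℝ) : ℝ :=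
  (y - ma χ p) / Real.sqrt (va χ p)

/-- the mean of the normalised variable for the density `pp` (for `χ(p) ≠ -1`) -/
noncomputable def ga (χ : DirichletCharacter ℂ q) (p : ℕ) : ℝ :=
  if cv χ p = 1 then -(2 / Real.sqrt p) / (1 - 1 / p)
  else if cv χ p = 0 then -(1 / Real.sqrt p) / Real.sqrt (1 - 1 / p) else 0

/-- `(∫ pp)² / ∫ pp²`: the energy of the perfect mollifier at `p` -/
noncomputable def ep (χ : DirichletCharacter ℂ q) (p : ℕ) : ℝ :=
  (1 - cv χ p / p) ^ 2 * (1 - 1 / p) * (1 - cv χ p ^ 2 / p) / (1 - cv χ p ^ 2 / (p : ℝ) ^ 2)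

/-- the primes up to `z` -/
def Pz (z : ℕ) : Finset ℕ := (Finset.Icc 1 z).filter Nat.Prime

/-- the primes of the rough part -/
noncomputable def PR (χ : DirichletCharacter ℂ q) (z₀ z₁ : ℕ) : Finset ℕ :=
  (Finset.Ioc z₀ z₁).filter (fun p => p.Prime ∧ cv χ p ≠ -1)

/-- the subsets of `S` with product at most `K` -/
def SQ (S : Finset ℕ) (K : ℕ) : Finset (Finset ℕ) := S.powerset.filter (fun J => ∏ p ∈ J, p ≤ K)

/-- Selberg's sum -/
noncomputable def HS (χ : DirichletCharacter ℂ q) (z₀ z₁ K : ℕ) : ℝ :=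
  ∑ J ∈ SQ (PR χ z₀ z₁) K, ∏ p ∈ J, ga χ p ^ 2

/-- the rough part of the mollifier -/
noncomputable def br (χ : DirichletCharacter ℂ q) (z₀ z₁ K : ℕ) (x : ℕ → ℝ) : ℝ :=
  1 / HS χ z₀ z₁ K * ∑ J ∈ SQ (PR χ z₀ z₁) K, ∏ p ∈ J, (ga χ p * ph χ p (x p))

/-- the factor that kills the zero mode -/
noncomputable def th (p₀ : ℕ) (x : ℕ → ℝ) : ℝ := 1 - p₀ / (p₀ + 1) * x p₀ / Real.sqrt p₀

/-- `x` is the vector of the polynomial `F` -/
def IsV (K : ℕ) (x : ℕ → ℝ) (F : (ℕ → ℝ) → ℝ) : Prop := SuppIn K x ∧ ∀ la, MX K x la = F la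

end Pool.Agent.LM
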